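import Pool.Agent.Q37.Comm4

/-!
# MP_bf1dc4_ag: primality of the diagonal and antidiagonal commutator ideals

For every field `K` and every `n ≥ 3`, the ideal `J` of the antidiagonal entries and the ideal
`I + J` of the diagonal and antidiagonal entries of the commutator of two generic `n × n` matrices
are prime.
-/

set_option autoImplicit false

open MvPolynomial

namespace Pool.Agent.Results.MP_bf1dc4_ag.Commutator

/-- The polynomial ring `K[X, Y]` in the entries of two `n × n` matrices. -/
abbrev R (K : Type) [Field K] (n : ℕ) : Type := MvPolynomial ((Fin n × Fin n) ⊕ (Fin n × Fin n)) K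

/-- The generic matrix `X`. -/
noncomputable def genX (K : Type) [Field K] (n : ℕ) : Matrix (Fin n) (Fin n) (R K n) :=
  Matrix.of fun i j => X (Sum.inl (i, j))

/-- The generic matrix `Y`. -/
noncomputable def genY (K : Type) [Field K] (n : ℕ) : Matrix (Fin n) (Fin n) (R K n) :=
  Matrix.of fun i j => X (Sum.inr (i, j))

/-- The commutator `C = XY - YX`. -/
noncomputable def comm (K : Type) [Field K] (n : ℕ) : Matrix (Fin n) (Fin n) (R K n) :=
  genX K n * genY K n - genY K n * genX K n

/-- The ideal `I` generated by the diagonal entries of `C`. -/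
noncomputable def diagIdeal (K : Type) [Field K] (n : ℕ) : Ideal (R K n) :=
  Ideal.span (Set.range fun i : Fin n => comm K n i i)

/-- The ideal `J` generated by the antidiagonal entries of `C`; `Fin.rev i` is the index
`n - 1 - i` (indices run from `0` to `n - 1`). -/
noncomputable def antiIdeal (K : Type) [Field K] (n : ℕ) : Ideal (R K n) :=
  Ideal.span (Set.range fun i : Fin n => comm K n i (Fin.rev i))

lemma comm_eq (K : Type) [Field K] (n : ℕ) (i j : Fin n) :
    comm K n i j = Q37.Comm.cm K n i j := by
  rw [comm, Matrix.sub_apply, Matrix.mul_apply, Matrix.mul_apply, Q37.Comm.cm,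
    Finset.sum_sub_distrib]
  rfl

theorem result : ∀ (K : Type) [Field K] (n : ℕ), 3 ≤ n →
    (diagIdeal K n ⊔ antiIdeal K n).IsPrime ∧ (antiIdeal K n).IsPrime := by
  intro K _ n hn
  constructor
  · have h := Q37.Comm.prime_diag_anti (K := K) hn
    have h1 : diagIdeal K n ⊔ antiIdeal K n =
        Ideal.span {f | ∃ i j : Fin n, (j = i ∨ j = i.rev) ∧ f = Q37.Comm.cm K n i j} := by
      rw [diagIdeal, antiIdeal, ← Ideal.span_union]
      congr 1
      ext f
      constructor
      · rintro (⟨i, rfl⟩ | ⟨i, rfl⟩)
        · exact ⟨i, i, Or.inl rfl, comm_eq K n i i⟩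
        · exact ⟨i, i.rev, Or.inr rfl, comm_eq K n i i.rev⟩
      · rintro ⟨i, j, rfl | rfl, rfl⟩
        · exact Or.inl ⟨j, comm_eq K n j j⟩
        · exact Or.inr ⟨i, comm_eq K n i i.rev⟩
    rw [h1]
    exact h
  · have h := Q37.Comm.prime_anti (K := K) hn
    have h1 : antiIdeal K n = Ideal.span (Set.range fun k : Fin n => Q37.Comm.cm K n k k.rev) := by
      rw [antiIdeal]
      congr 2
      funext i
      exact comm_eq K n i i.rev
    rw [h1]
    exact h

end Pool.Agent.Results.MP_bf1dc4_ag.Commutator
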